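import Pool.Agent.W_68f289_h35c.Fin35

/-!
The groups of Hamiltonian homeomorphisms and of hameomorphisms of the ball are simple if and only if
the commutator subgroup and the subgroup of the fragmentable elements have small index; they are
perfect if and only if fewer elements than the continuum and the commutators generate them.
-/

open Set Metric Topology Filter commutatorElement
open scoped NNReal ContDiff

namespace Pool.Agent.W_68f289_h94

open Pool.Agent.W_MP_68f289_gt Pool.Agent.W_68f289_h35 Pool.Agent.W_68f289_h51 Pool.Agent.W_68f289_h58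

variable {n : ℕ} {L : Subgroup (E n ≃ₜ E n)}

/-- the fragmentable elements are stable under the copies -/
lemma FrL_stable (h : Gd L) {u : ℝ} (u0 : 0 < u) (u1 : u ≤ 1) {g : Ty L} (hg : g ∈ FrL L) :
    (semi h).σ u g ∈ FrL L := by
  have key : ∀ ε : ℝ, 0 < ε → Subgroup.closure (SmallSupp L ε) ≤
      (Subgroup.closure (SmallSupp L ε)).comap ((semi h).σ u) := by
    intro ε hε
    rw [Subgroup.closure_le]
    rintro a ⟨c, hc⟩
    refine Subgroup.subset_closure ⟨u • c, fun x hx => ?_⟩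
    obtain ⟨z, rfl⟩ : ∃ z : E n, x = u • z := ⟨u⁻¹ • x, by rw [smul_inv_smul₀ u0.ne']⟩
    have h1 : z ∉ ball c ε := by
      intro hz
      apply hx
      rw [mem_ball, dist_eq_norm] at hz ⊢
      rw [← smul_sub, norm_smul, Real.norm_eq_abs, abs_of_pos u0]
      calc u * ‖z - c‖ ≤ 1 * ‖z - c‖ := by gcongr
        _ < ε := by rw [one_mul]; exact hz
    exact (sg_smul h u0 u1 a z).trans (by rw [hc z h1])
  unfold FrL at hg ⊢
  rw [Subgroup.mem_iInf] at hg ⊢
  intro ε
  have h1 := hg ε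
  rw [Subgroup.mem_iInf] at h1 ⊢
  intro hε
  exact key ε hε (h1 hε)

lemma Mo_le_FrL (hn : 1 ≤ n) (h : Gd L) : Mo L (Bl n) ≤ FrL L := by
  have S := sysL hn h.big
  have hFn := S.Fr_normal
  have h1 : Mo L (Bl n) ≤ Fr L (E n) := by
    rw [S.Mo_eq]
    exact Subgroup.commutator_le_left _ _
  exact h1

/-- in a perfect group the fragmentable elements have small index only if they are everything -/
theorem FrL_top (hn : 1 ≤ n) (h : Gd L) (hp : commutator (Ty L) = ⊤)
    (hc : Cardinal.mk (Ty L ⧸ FrL L) < Cardinal.continuum) : FrL L = ⊤ := by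
  refine top_of_index (semi h) (FrL L) (fun u u0 u1 g hg => FrL_stable h u0 u1 hg)
    (fun b u _ _ _ => ⟨1 / 4, by norm_num, by norm_num, Mo_le_FrL hn h ?_⟩) hc
  exact copy_mem hn h (by norm_num) (by norm_num) (hp ▸ Subgroup.mem_top b)

/-- fewer elements than the continuum and the commutators generate the group: then the group is
perfect -/
theorem small_of_gen {Γ : Type} [Group Γ] {A : Set Γ} (hA : Cardinal.mk A < Cardinal.continuum)
    (hg : Subgroup.closure A ⊔ commutator Γ = ⊤) :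
    Cardinal.mk (Γ ⧸ commutator Γ) < Cardinal.continuum := by
  have hB : Subgroup.closure ((Abelianization.of : Γ →* Abelianization Γ) '' A) = ⊤ := by
    rw [← MonoidHom.map_closure, eq_top_iff]
    intro x _
    obtain ⟨g, rfl⟩ := QuotientGroup.mk_surjective x
    have h1 : g ∈ Subgroup.closure A ⊔ commutator Γ := by
      rw [hg]
      exact Subgroup.mem_top g
    obtain ⟨a, ha, c, hc, rfl⟩ := Subgroup.mem_sup_of_normal_right.1 h1
    refine ⟨a, ha, ?_⟩
    change (Abelianization.of a : Abelianization Γ) = Abelianization.of (a * c)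
    rw [map_mul, show (Abelianization.of c : Abelianization Γ) = 1 from
      (QuotientGroup.eq_one_iff c).2 hc, mul_one]
  have h1 := mk_closure_le ((Abelianization.of : Γ →* Abelianization Γ) '' A)
  rw [hB] at h1
  have h2 : Cardinal.mk (⊤ : Subgroup (Abelianization Γ)) = Cardinal.mk (Abelianization Γ) :=
    Cardinal.mk_congr Subgroup.topEquiv.toEquiv
  rw [h2] at h1
  change Cardinal.mk (Abelianization Γ) < Cardinal.continuum
  exact h1.trans_lt (max_lt (lt_of_le_of_lt Cardinal.mk_image_le hA) Cardinal.aleph0_lt_continuum)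

/-- the simple groups -/
theorem fin69 (hn : 1 ≤ n) (h : Gd L) (I : Ip (semi h)) (T : Sft (semi h)) :
    [IsSimpleGroup (Ty L),
      ∃ T : Set (Ty L), T.Finite ∧
        Cardinal.mk (Ty L ⧸ Subgroup.normalClosure T) < Cardinal.continuum,
      ¬ ∃ N : ℕ → Subgroup (Ty L), Monotone N ∧ (∀ k, (N k).Normal ∧ N k ≠ ⊤) ∧
        ∀ g, ∃ k, g ∈ N k,
      Cardinal.mk {N : Subgroup (Ty L) // N.Normal} < Cardinal.continuum,
      Cardinal.mk (Ty L ⧸ commutator (Ty L)) < Cardinal.continuum ∧ ∃ r : ℝ, 0 < r ∧ r < 1 ∧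
        Cardinal.mk (Ty L ⧸ Subgroup.normalClosure {u : Ty L | ∃ g : Ty L,
          ∀ x : E n, (u : E n ≃ₜ E n) (r • x) = r • (g : E n ≃ₜ E n) x}) < Cardinal.continuum,
      Cardinal.mk (Ty L ⧸ commutator (Ty L)) < Cardinal.continuum ∧
        Cardinal.mk (Ty L ⧸ FrL L) < Cardinal.continuum,
      ∃ M : Subgroup (Ty L), M.Normal ∧ M ≠ ⊥ ∧
        (∀ N : Subgroup (Ty L), N.Normal → N ≠ ⊥ → M ≤ N) ∧
        Cardinal.mk (Ty L ⧸ M) < Cardinal.continuum].TFAE := by
  have h1 := fin35 hn h I T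
  have S := sysL hn h.big
  tfae_have 1 ↔ 2 := h1.out 0 1
  tfae_have 1 ↔ 3 := h1.out 0 2
  tfae_have 1 ↔ 4 := h1.out 0 3
  tfae_have 1 ↔ 5 := h1.out 0 4
  tfae_have 1 ↔ 7 := h1.out 0 5
  tfae_have 1 → 6 := by
    intro hs
    have hM : Mo L (Bl n) = ⊤ := S.simple_iff.1 hs
    have hMc : Mo L (Bl n) ≤ commutator (Ty L) := by
      rw [commutator_def]
      exact Subgroup.commutator_mono le_top le_rfl
    exact ⟨mk_top_lt (top_le_iff.1 (hM ▸ hMc)), mk_top_lt (top_le_iff.1 (hM ▸ Mo_le_FrL hn h))⟩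
  tfae_have 6 → 1 := by
    rintro ⟨h2, h3⟩
    have hp := perfect_of_small T h2
    have hF : Fr L (E n) = ⊤ := FrL_top hn h hp h3
    refine S.simple_iff.2 ?_
    rw [S.Mo_eq, hF]
    exact hp
  tfae_finish

/-- the perfect groups -/
theorem perf69 (hn : 1 ≤ n) (h : Gd L) (I : Ip (semi h)) (T : Sft (semi h)) :
    [commutator (Ty L) = ⊤,
      ∃ T : Set (Ty L), Cardinal.mk T < Cardinal.continuum ∧
        Subgroup.closure T ⊔ commutator (Ty L) = ⊤,
      ¬ ∃ B : ℕ → Subgroup (Ty L), Monotone B ∧ (∀ k, commutator (Ty L) ≤ B k ∧ B k ≠ ⊤) ∧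
        ∀ g, ∃ k, g ∈ B k,
      Cardinal.mk {B : Subgroup (Ty L) // commutator (Ty L) ≤ B} < 2 ^ Cardinal.continuum,
      Cardinal.mk (Ty L ⧸ commutator (Ty L)) < Cardinal.continuum].TFAE := by
  obtain ⟨-, h2, -⟩ := fin13 hn h I T
  tfae_have 1 ↔ 3 := h2.out 0 2
  tfae_have 1 ↔ 4 := h2.out 0 3
  tfae_have 1 ↔ 5 := h2.out 0 4
  tfae_have 1 → 2 := by
    intro hp
    refine ⟨∅, ?_, by rw [hp, sup_top_eq]⟩
    rw [Cardinal.mk_eq_zero]
    exact Cardinal.aleph0_pos.trans Cardinal.aleph0_lt_continuum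
  tfae_have 2 → 5 := by
    rintro ⟨A, hA, hg⟩
    exact small_of_gen hA hg
  tfae_finish

end Pool.Agent.W_68f289_h94
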